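import Pool.Agent.Helper90.HB.Base
import Pool.Agent.Helper90.HB.Res
import Pool.Agent.Helper90.HB.Van
set_option autoImplicit false

/-!
Beilinson's conjecture on regulators for `m = -1` in every dimension: `i = dim X = k + 1`,
`n = k + 3` (the group `H^(k+2)_M(X, ℚ(k+3))`, a part of `K_(k+4)(X)`). Nonzero unramified elements
in the cohomology of the polylogarithmic complexes at `B_2 ⊗ Λ^(k+1)`, with nonzero regulators at all
embeddings, on the hypersurfaces `∏_j ((1 - m_j) (1 - m_j⁻¹)) ^ (n_j) = 1`, `m_j = ε_j x^(v_j)`, of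
the torus `𝔾_m^(k+2)` over number fields. The case `k = 0` of curves is the starting result
`WeightThreeClasses`.
-/

namespace Pool.Agent.Results.MP_15b3df_nt.BlochClassesAllDimensions

open Pool.Agent.Helper90.HB

open scoped WithZero

/-- The cocycles of the complex `B_3(A) ⊗ Λ^(k-1) A^* → B_2(A) ⊗ Λ^k A^* → Λ^(k+2) A^*`. -/
def IsCocycle {A : Type*} [CommRing A] {k : ℕ} (s : FS A k) : Prop := dif A k s = 0

/-- The class of a cocycle in the cohomology of the complex is not zero: it is not in the relations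
`Rels A k`. -/
def ClassNeZero {A : Type*} [CommRing A] {k : ℕ} (s : FS A k) : Prop := s ∉ Rels A k

/-- Unramified elements: for all fields `L` with a homomorphism `A → L`, all discrete valuations `v`
of `L` and all uniformizers `π` the residue in `B_2(κ(v)) ⊗ Λ^k κ(v)^* ⊗ ℚ` modulo the image of
`B_3(κ(v)) ⊗ Λ^(k-1) κ(v)^*` is zero. -/
def Unramified.{u, w} {A : Type u} [CommRing A] {k : ℕ} (s : FS A (k + 1)) : Prop :=
  ∀ (L : Type w) [Field L] (φ : A →+* L) (v : Valuation L ℤᵐ⁰) (π : Lˣ),
    v (π : L) = WithZero.exp (-1 : ℤ) → bnd v π k (FS.map φ s) = 0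

/-- The chain is a chain of points over the embedding `σ` of the constants, and `|x_s| = 1` on it for
all coordinates `x_s`. -/
def InTorus {K : Type*} [Field K] {k r l : ℕ} (C : Dat K k r) (σ : K →+* ℂ) (γ : Cyc C.Ring l) :
    Prop :=
  (∀ θ a, γ.e θ (C.cst a) = σ a) ∧ ∀ θ s, ‖γ.e θ (C.x s)‖ = 1

/-- The regulator on the chain vanishes on the relations, so that it is defined on the cohomology of
the complex. -/
def KillsRels {A : Type*} [CommRing A] {k : ℕ} (γ : Cyc A k) : Prop := ∀ s ∈ Rels A k, γ.reg s = 0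

/-- Let `K` be a number field, `k ≥ 0`, let `m_j = ε_j x^(v_j)`, `1 ≤ j ≤ r`, be monomials in
`x_0, ..., x_(k+1)`, where the `ε_j` are roots of unity in `K` and the exponents `v_j ∈ ℤ^(k+2)` are
pairwise not proportional and span `ℚ^(k+2)`, and let `n_j ≥ 1` be integers (`C.Admissible`). Let
`A = C.Ring` be the coordinate ring of the hypersurface

  `∏_j ((1 - m_j) (1 - m_j⁻¹)) ^ (n_j) = 1`

of dimension `k + 1` in the torus `𝔾_m^(k+2)` over `K`. The element

  `α = ∑_j n_j / |v_j|² ∑_s (-1)^s v_(j,s) {m_j}_2 ⊗ x_0 ∧ ... ∧ x_(k+1)` (without `x_s`)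

is a cocycle of the complex
`B_3(A) ⊗ Λ^k A^* → B_2(A) ⊗ Λ^(k+1) A^* → Λ^(k+3) A^*` (tensored with `ℚ`), its class in the
cohomology of this complex, the kernel of the second map modulo the relations `Rels A (k + 1)`
(multilinearity, alternation, the five term relations, and the elements `{f}_2 ⊗ f ∧ ...`), is not
zero, and it is unramified: for all fields `L` with a homomorphism `A → L`, all discrete valuations
`v` of `L` and all uniformizers `π` the residue of `α` in `B_2(κ(v)) ⊗ Λ^k κ(v)^* ⊗ ℚ` modulo the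
image of `B_3(κ(v)) ⊗ Λ^(k-1) κ(v)^*` is zero.

For every embedding `σ` of `K` there is a closed cubical chain `γ` of dimension `k + 1` and of class
`C²` (a sphere in spherical coordinates) in the complex points of the hypersurface over `σ`, on which
`|x_s| = 1` for all `s`, such that the integral over `[0,1] × γ` of the regulator form

  `Re ((-i)^k P_f ∧ d(t log|g_0| + i arg g_0) ∧ ... ∧ d(t log|g_k| + i arg g_k))`,

  `P_f = (t² - 1)/2 (log|f| d log|1-f| - log|1-f| d log|f|) - i D(f) dt`,

for `{f}_2 ⊗ g_0 ∧ ... ∧ g_k`, `D` the Bloch-Wigner function, is a negative number for `α`, and is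
zero for all elements of `Rels A (k + 1)`. -/
theorem result.{u, w} {K : Type u} [Field K] [NumberField K] {k r : ℕ} (C : Dat K (k + 1) r)
    (hC : C.Admissible) :
    IsCocycle (Dat.alpha hC) ∧ ClassNeZero (Dat.alpha hC) ∧ Unramified.{u, w} (Dat.alpha hC) ∧
    ∀ σ : K →+* ℂ, ∃ γ : Cyc C.Ring (k + 1),
      InTorus C σ γ ∧ KillsRels γ ∧ γ.reg (Dat.alpha hC) < 0 := by
  refine ⟨dif_alpha hC (two_le hC), ?_, fun L _ φ v π hπ => bnd_alpha hC φ v π hπ, fun σ => ?_⟩
  · obtain ⟨σ⟩ : Nonempty (K →+* ℂ) := inferInstance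
    obtain ⟨γ, -, -, h3⟩ := exists_cyc hC σ
    exact γ.not_mem h3.ne
  · obtain ⟨γ, h1, h2, h3⟩ := exists_cyc hC σ
    exact ⟨γ, And.intro h1 h2, fun s hs => γ.reg_of_mem hs, h3⟩

end Pool.Agent.Results.MP_15b3df_nt.BlochClassesAllDimensions
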