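import Pool.Agent.Helper39.SB.Fin
import Pool.Agent.Helper39.SB.Dom
import Pool.Agent.Helper39.SB.Exa
import Pool.Agent.Y797.IV.Unr
set_option autoImplicit false

/-!
Unramified classes with independent regulators in the Milnor K-theory of the fibrations
`P(y) = λ ∏_e L_e(x)` over number fields, for all Steinberg Laurent polynomials `P` with `0` in the
interior of the Newton polytope (for instance the mirror families of the complete intersections of
Calabi-Yau type), `L_e` being `m + 1` affine forms in `d + 1` variables in general position.
-/

namespace Pool.Agent.Results.MP_15b3df_nt.SteinbergFibrations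

open Pool.Agent.TH826.MK (KQ symb Unramified Torus)

open Pool.Agent.TH826.DC (dPhi)

open Pool.Agent.Y797.IV (Clears GenPos)

open Pool.Agent.Helper39.SB

section defs

variable {K : Type*} [Field K] {d m q : ℕ}

/-- The symbols of all simplices are unramified at all discrete valuations of all fields over the
coordinate ring of the open part of the variety `P(y) = λ ∏_e L_e(x)` (for instance of the function
fields of its components). -/
def UnramifiedSymbols.{u, v} {K : Type u} [Field K] (P : LP K (q + 1)) (lam : K)
    (c : Fin (m + 1) → Fin (d + 1) → K) (a : Fin (m + 1) → K) : Prop :=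
  ∀ (L : Type v) [Field L] (f : FOpen P lam c a →+* L) (S : Fin (d + 2) → Fin (m + 1)),
    Function.Injective S →
      KQ.map (d + 1 + q + 1) f (symb (fent P lam c a S)) ∈ Unramified L (d + 1 + q + 1)

/-- The simplex with the facets `0, t_0 + 1, ..., t_d + 1`, where `t = {t_0 < ... < t_d}`. -/
def splx (t : {t : Finset (Fin m) // t.card = d + 1}) : Fin (d + 2) → Fin (m + 1) :=
  Fin.cons 0 fun k => (t.1.orderEmbOfFin t.2 k).succ

/-- There are `binom(m, d + 1)` tori of dimension `d + 1 + q` in the complex points over `σ` of the
open part, such that the determinant of the regulators on the tori of the symbols of the simplices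
`(0, t_0, ..., t_d)`, `1 ≤ t_0 < ... < t_d ≤ m`, does not vanish. -/
def IndependentRegulators (σ : K →+* ℂ) (P : LP K (q + 1)) (lam : K)
    (c : Fin (m + 1) → Fin (d + 1) → K) (a : Fin (m + 1) → K) : Prop :=
  ∃ Γ : {t : Finset (Fin m) // t.card = d + 1} → Torus (FOpen P lam c a) (d + 1 + q),
    (∀ t θ (x : K), (Γ t).e θ (fcst P lam c a x) = σ x) ∧
    (Matrix.of fun t i : {t : Finset (Fin m) // t.card = d + 1} =>
      (Γ t).reg (symb (fent P lam c a (splx i)))).det ≠ 0

/-- The properties of the variety `P(y) = λ ∏_e L_e(x)`: if `d ≥ 1`, its coordinate ring and the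
coordinate ring of its open part are domains; the symbols are unramified and have independent
regulators. -/
def Properties.{u, v} {K : Type u} [Field K] (σ : K →+* ℂ) (P : LP K (q + 1)) (lam : K)
    (c : Fin (m + 1) → Fin (d + 1) → K) (a : Fin (m + 1) → K) : Prop :=
  (1 ≤ d → IsDomain (FRing P lam c a) ∧ IsDomain (FOpen P lam c a)) ∧
    UnramifiedSymbols.{u, v} P lam c a ∧ IndependentRegulators σ P lam c a

/-- The Laurent polynomial `P` is a Steinberg polynomial (with respect to some space) with `0` in the
interior of its Newton polytope. -/
def Admissible (P : LP K (q + 1)) : Prop := (∃ V, Steinberg V P) ∧ Interior P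

end defs

/-- A Laurent polynomial with `0` in the interior of the Newton polytope is not zero. -/
theorem ne_zero_of_interior {K : Type*} [Field K] {q : ℕ} {P : LP K (q + 1)} (h : Interior P) :
    P ≠ 0 := by
  rintro rfl
  obtain ⟨w, hw, -⟩ := h 1 one_ne_zero
  simp at hw

/-- The coordinate ring of the open part is a domain, if it has a point. -/
theorem isDomain_FOpen {K : Type*} [Field K] {d m n : ℕ} {P : LP K n} {lam : K}
    {c : Fin (m + 1) → Fin (d + 1) → K} {a : Fin (m + 1) → K} (h : IsDomain (FRing P lam c a))
    (g : FOpen P lam c a →+* ℂ) : IsDomain (FOpen P lam c a) := by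
  have h1 : fpol P lam c a (dPhi lam c a) ≠ 0 := by
    intro h0
    have h2 : toF P lam c a (fpol P lam c a (dPhi lam c a)) = 0 :=
      (congrArg (toF P lam c a) h0).trans (map_zero _)
    exact ((isUnit_fPhi P lam c a).map g).ne_zero ((congrArg g h2).trans (map_zero g))
  exact IsLocalization.isDomain_localization (powers_le_nonZeroDivisors_of_noZeroDivisors h1)

/-- Let `P` be a Laurent polynomial in `q + 1 ≥ 1` variables `y_0, ..., y_q` over the number field
`K`, which is a Steinberg polynomial (with respect to some space `V`) and has `0` in the interior of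
its Newton polytope, let `d + 1 ≤ m`, let `σ` be a complex embedding of `K`, and let
`L_e = ∑_j c_{e,j} x_j - a_e`, `0 ≤ e ≤ m`, be affine forms in `d + 1` variables with integral
coefficients in `K` in general position (the linear parts of `d + 1` different forms are linearly
independent, `d + 2` different forms have no common zero). An algebraic integer `D ≠ 0` of `K`
clears the denominators of the vertices, if the coordinates of `D p` are integral for all common
zeros `p` of `d + 1` forms; there are such `D` (even positive rational integers). There is a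
constant `C` such that for all these `D`, all algebraic integers `μ` of `K` and
`λ = μ D ^ (m + 1)` with `|σ λ| ≥ C` the variety `P(y) = λ ∏_e L_e(x)` of dimension `d + 1 + q` in
the product of the torus and the affine space has the following properties. If `d ≥ 1`, its
coordinate ring and the coordinate ring of its open part `∏_e L_e ≠ 0` are domains. For all `d + 2`
different forms `S` the symbol `{y_0, u_1, ..., u_{d+1}, y_1, ..., y_q}`,
`u_k = γ_k L_{S_k} / (γ_0 L_{S_0})`, on the open part is unramified at all discrete valuations of
all fields `L` with a homomorphism of the coordinate ring of the open part to `L` (for instance of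
the function fields of its components), where `γ_k` is `(-1)^k` times the determinant of the linear
parts of the forms `S` without `S_k`. There are `binom(m, d + 1)` tori of dimension `d + 1 + q` in
the complex points (over `σ`) of the open part, such that the determinant of the regulators on the
tori of the symbols of the `S = (0, t_0, ..., t_d)` with `1 ≤ t_0 < ... < t_d ≤ m` does not vanish.

Moreover, for every decomposition `β` of the variables into `k` (possibly empty) blocks the Laurent
polynomial `∏_j (1 + ∑_{β i = j} y_i)^(#{i : β i = j} + 1) / (y_0 ... y_q)` of the mirror family of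
the complete intersections of `k` hypersurfaces of the degrees `#{i : β i = j} + 1` in the
projective space of dimension `q + k` is a Steinberg polynomial with `0` in the interior of its
Newton polytope. -/
theorem result.{u, v} (d m q : ℕ) (hm : d + 1 ≤ m) (K : Type u) [Field K] [NumberField K] :
    (∀ (σ : K →+* ℂ) (P : LP K (q + 1)), Admissible P →
      ∀ (c : Fin (m + 1) → Fin (d + 1) → K) (a : Fin (m + 1) → K),
        (∀ e j, IsIntegral ℤ (c e j)) → (∀ e, IsIntegral ℤ (a e)) → GenPos c a →
        (∃ D : ℕ, Clears c a (D : K)) ∧
        ∃ C : ℝ, ∀ D mu : K, Clears c a D → IsIntegral ℤ mu → C ≤ ‖σ (mu * D ^ (m + 1))‖ →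
          Properties.{u, v} σ P (mu * D ^ (m + 1)) c a) ∧
    ∀ (k : ℕ) (β : Fin (q + 1) → Fin k), Admissible (mirrorP K β) := by
  refine ⟨fun σ P ⟨⟨V, hV⟩, hint⟩ c a hc ha hG => ⟨Pool.Agent.Y797.IV.exists_clears c a, ?_⟩,
    fun k β => ⟨steinberg_mirrorP β, interior_mirrorP β⟩⟩
  have hP : P ≠ 0 := ne_zero_of_interior hint
  obtain ⟨C, hC, h⟩ := exists_tori (a := a) σ hP hG.1 hG.2
  refine ⟨C, fun D mu hD hmu hl => ?_⟩
  generalize hlam : mu * D ^ (m + 1) = lam at hl
  have hl0 : lam ≠ 0 := by
    intro h0
    rw [h0, map_zero, norm_zero] at hl
    linarith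
  obtain ⟨Γ, hΓ⟩ := h lam hl
  refine ⟨fun hd => ?_, fun L _ f S hS => ?_, Γ, hΓ⟩
  · have h1 := isDomain_FRing hP hl0 hG hd hm
    obtain ⟨s, -, hs⟩ := Finset.exists_subset_card_eq
      (show d + 1 ≤ (Finset.univ : Finset (Fin m)).card by simpa using hm)
    exact ⟨h1, isDomain_FOpen h1 ((Γ ⟨s, hs⟩).e 0)⟩
  · exact symb_mem_unramified f hV hint hG hc ha hD hmu hlam.symm hS

end Pool.Agent.Results.MP_15b3df_nt.SteinbergFibrations
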