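import Pool.Agent.Helper84.TP.Blocks
import Pool.Agent.Helper84.TP.Tori
set_option autoImplicit false

/-!
Beilinson's conjecture on regulators: unramified classes with independent regulators in the Milnor
K-theory of complete intersections `F_0 = 0, …, F_(k-1) = 0, W = λ` of arbitrary dimension `d` and
codimension `k + 1` in tori, over arbitrary number fields. If the system is tempered, the symbols
`{y_(g 0), …, y_(g d)}` of `d + 1` of the `n = k + d + 1` coordinates are unramified; the
independence of their regulators for large `λ` is reduced to a property of the exponents (mixed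
cells), which is proved if the `F_i` are polynomials in disjoint blocks of variables: there are
`∏ |B_i|` classes then (`d + 2` classes if `k = 1` and there is no restriction on `F_0`).
-/

namespace Pool.Agent.Results.MP_15b3df_nt.TemperedCompleteIntersections

open Pool.Agent.TH826.MK (KQ Unramified Torus symb)

open Pool.Agent.Helper84.TP

section defs

variable {K : Type*} [Field K] {ν : Type*} [Fintype ν] [DecidableEq ν] {k : ℕ}

/-- The symbol `{y_(g 0), …, y_(g d)}` of coordinates in the rational Milnor K-group of the
coordinate ring of `F_0 = 0, …, F_(k-1) = 0, W = λ`. -/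
noncomputable def coordSymb (F : Fin k → Lau K ν) (W : Lau K ν) (lam : K) {d : ℕ}
    (g : Fin (d + 1) → ν) : KQ (XRing F W lam) (d + 1) :=
  symb fun l => xu F W lam (g l)

/-- All symbols of `d + 1` coordinates have unramified images in `K_(d+1)^M ⊗ ℚ` of all fields `L`
with a homomorphism from the coordinate ring to `L` (for example of the function fields of the
components). -/
def UnramifiedSymbols.{u, v, w} {K : Type u} [Field K] {ν : Type w} [Fintype ν] [DecidableEq ν]
    {k : ℕ} (F : Fin k → Lau K ν) (W : Lau K ν) (lam : K) (d : ℕ) : Prop :=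
  ∀ (L : Type v) [Field L] (f : XRing F W lam →+* L) (g : Fin (d + 1) → ν),
    KQ.map (d + 1) f (coordSymb F W lam g) ∈ Unramified L (d + 1)

/-- There are tori of dimension `d` in the complex points over `σ`, such that the determinant of
the regulators of the symbols of the coordinates `g_t`, `t ∈ T`, on these tori does not vanish. -/
def IndependentRegulators (F : Fin k → Lau K ν) (W : Lau K ν) (lam : K) (σ : K →+* ℂ) {T : Type*}
    [Fintype T] [DecidableEq T] {d : ℕ} (g : T → Fin (d + 1) → ν) : Prop :=
  ∃ Γ : T → Torus (XRing F W lam) d, (∀ t θ x, (Γ t).e θ (xcst F W lam x) = σ x) ∧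
    (Matrix.of fun t t' => (Γ t).reg (coordSymb F W lam (g t'))).det ≠ 0

/-- There are mixed cells `c_t`, such that the determinant of the minors with the columns `s_(t')`
of the matrices of the vectors `a_i - b_i` of the cells `c_t` does not vanish. -/
def EnoughCells (F : Fin k → Lau K ν) (W : Lau K ν) {T : Type*} [Fintype T] [DecidableEq T]
    (s : T → Fin k → ν) : Prop :=
  ∃ c : T → MixedCell F W,
    (Matrix.of fun t t' => (Matrix.of fun i j => (c t).m i (s t' j)).det).det ≠ 0

/-- The tuples `s_t`, `t ∈ T`, are the tuples `(r_0, …, r_(k-1))` with `r_i ∈ B_i`, each one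
exactly once. -/
def Enumerates {ν : Type*} {k : ℕ} {T : Type*} (s : T → Fin k → ν) (B : Fin k → Finset ν) : Prop :=
  (∀ t i, s t i ∈ B i) ∧ ∀ r : Fin k → ν, (∀ i, r i ∈ B i) → ∃! t, s t = r

end defs

/-- Let `F_0, …, F_(k-1)` and `W` be Laurent polynomials in the `n = k + d + 1` variables `y_i`,
`i ∈ ν`, with integral coefficients in the number field `K`, `0` being an interior point of the
Newton polytope of `W`, and let `X_λ` be the complete intersection `F_0 = 0, …, F_(k-1) = 0, W = λ`
in the torus (`k = 0` is allowed). Let `s_t`, `t ∈ T`, be tuples of `k` variables, and let `g_t` be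
enumerations of the `d + 1` other variables. Assume one of the following.

(a) The system `W, F_0, …, F_(k-1)` is tempered, and there are enough mixed cells for the `s_t`.

(b) The system `W, F_0, …, F_(k-1)` is simplicial: the coefficients of the initial forms in all
directions `φ ≠ 0` are roots of unity, and their exponents are jointly affinely independent; `F_i`
is a Laurent polynomial in the variables of a block `B_i`, the blocks being disjoint (they may omit
some of the variables) and the exponents of `F_i` affinely spanning `ℚ^(B_i)`; and the `s_t` are all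
tuples with `s_t(i) ∈ B_i`.

Then the symbols of `d + 1` coordinates have unramified images in `K_(d+1)^M ⊗ ℚ` of all fields `L`
with a homomorphism from the coordinate ring of `X_λ`, for all algebraic integers `λ` of `K`. For
all embeddings `σ` of `K` there is a constant `C`, such that for all `λ ∈ K` with `|σ λ| ≥ C` there
are tori `Γ_t`, `t ∈ T`, in the complex points over `σ` of `X_λ`, such that the determinant of the
regulators on the `Γ_t` of the symbols of the coordinates `g_t'` does not vanish; and for all but
finitely many algebraic integers `λ` of `K` this is true for some embedding `σ`.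

So there are `∏ |B_i|` unramified classes with independent regulators in (b), for instance `d + 2`
classes if `k = 1` and `B_0` is the set of all variables. -/
theorem result.{u, v, w} (K : Type u) [Field K] [NumberField K] (ν : Type w) [Fintype ν]
    [DecidableEq ν] (k d : ℕ) (hν : Fintype.card ν = k + (d + 1)) (F : Fin k → Lau K ν)
    (W : Lau K ν) (hF : ∀ i u, IsIntegral ℤ ((F i).coeff u)) (hW : ∀ u, IsIntegral ℤ (W.coeff u))
    (hI : Interior W) (T : Type w) [Fintype T] [DecidableEq T] (s : T → Fin k → ν)
    (g : T → Fin (d + 1) → ν) (hsg : ∀ t, Function.Bijective (Sum.elim (s t) (g t)))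
    (h : (Tempered (Fin.cons W F : Fin (k + 1) → Lau K ν) ∧ EnoughCells F W s) ∨
      (Simplicial (Fin.cons W F : Fin (k + 1) → Lau K ν) ∧
        ∃ B : Fin k → Finset ν, InBlocks F B ∧ Enumerates s B)) :
    (∀ lam : K, IsIntegral ℤ lam → UnramifiedSymbols.{u, v, w} F W lam d) ∧
    (∀ σ : K →+* ℂ, ∃ C : ℝ, ∀ lam : K, C ≤ ‖σ lam‖ → IndependentRegulators F W lam σ g) ∧
    {lam : K | IsIntegral ℤ lam ∧ ∀ σ : K →+* ℂ, ¬ IndependentRegulators F W lam σ g}.Finite := by
  have h0 : Tempered (Fin.cons W F : Fin (k + 1) → Lau K ν) ∧ EnoughCells F W s := by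
    rcases h with h | ⟨hS, B, hB, hs⟩
    · exact h
    refine ⟨hS.tempered, ?_⟩
    obtain ⟨c, hc⟩ := exists_mixedCells hν hB hS.indep hI
    set e : T → ∀ i, B i := fun t i => ⟨s t i, hs.1 t i⟩ with he
    have hes : ∀ t i, ((e t i : B i) : ν) = s t i := fun t i => rfl
    have hbij : Function.Bijective e := by
      constructor
      · intro t t' h1
        obtain ⟨t₀, -, hu⟩ := hs.2 (s t') (hs.1 t')
        refine (hu t ?_).trans (hu t' rfl).symm
        funext i
        rw [← hes t, ← hes t', h1]
      · intro r
        obtain ⟨t, ht, -⟩ := hs.2 (fun i => (r i : ν)) fun i => (r i).2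
        refine ⟨t, ?_⟩
        funext i
        exact Subtype.ext (congrFun ht i)
    set E : T ≃ (∀ i, B i) := Equiv.ofBijective e hbij with hE
    refine ⟨fun t => c (E t), ?_⟩
    have h2 : (Matrix.of fun t t' : T => (Matrix.of fun i j => (c (E t)).m i (s t' j)).det) =
        (Matrix.of fun r r' : ∀ i, B i =>
          (Matrix.of fun i j => (c r).m i (r' j : ν)).det).submatrix E E := by
      ext t t'
      rfl
    rw [h2, Matrix.det_submatrix_equiv_self]
    exact hc
  refine ⟨fun lam hlam L _ f g => symb_mem_unramified hν (isIntegral_sys hF hW hlam)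
    (tempered_sys hI h0.1 lam) f g, ?_⟩
  obtain ⟨c, hdet⟩ := h0.2
  have h1 : ∀ σ : K →+* ℂ, ∃ C : ℝ, ∀ lam : K, C ≤ ‖σ lam‖ →
      IndependentRegulators F W lam σ g := by
    intro σ
    obtain ⟨C, -, h⟩ := exists_tori σ hν c s g hsg hdet
    exact ⟨C, h⟩
  refine ⟨h1, ?_⟩
  choose C hC using h1
  refine (NumberField.Embeddings.finite_of_norm_le K ℂ (∑ σ, |C σ|)).subset ?_
  rintro lam ⟨h2, h3⟩
  refine ⟨h2, fun σ => ?_⟩
  have h4 : ‖σ lam‖ < C σ := by
    by_contra h5
    exact h3 σ (hC σ lam (not_lt.1 h5))
  have h5 : |C σ| ≤ ∑ σ, |C σ| := Finset.single_le_sum (f := fun σ => |C σ|)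
    (fun σ _ => abs_nonneg _) (Finset.mem_univ σ)
  exact h4.le.trans ((le_abs_self _).trans h5)

end Pool.Agent.Results.MP_15b3df_nt.TemperedCompleteIntersections
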