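import Pool.Agent.Helper90.HT.Cyc
set_option autoImplicit false

/-!
Beilinson's conjecture on regulators for `m = -1` in every dimension: `i = dim X = k + 1`,
`n = k + 3` (the group `H^(k+2)_M(X, ℚ(k+3))`, a part of `K_(k+4)(X)`). Nonzero unramified elements
in the cohomology of the polylogarithmic complexes at `B_2 ⊗ Λ^(k+1)`, with nonzero regulators at all
embeddings, on the members with parameter a root of unity `t ≠ ±1` of the families of hypersurfaces
`(1 - x_0) (1 - 1/x_0) ∏_j ((1 - m_j) (1 - m_j⁻¹)) ^ (n_j) = t`, `m_j = ± x^(v_j)`, of the torus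
`𝔾_m^(k+2)` over number fields. For `k = 0` an example are the elliptic curves
`(1 - x) ^ 2 (1 - y) ^ 2 = t x y`, `t` any root of unity different from `±1`.

The hypersurfaces with parameter `1` are treated in `BlochClassesAllDimensions`; there the cycle is
in the torus `|x_s| = 1`, on which the left side of the equation is a real number, so that it does
not exist for the parameter `t`. Here the cycle is the graph of a branch of `x_0` over a shifted
torus `|x_l| = exp (-h q_l)`, `l ≥ 1`. It moves in a family with the parameter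
`-exp (i κ cos (π s))`, which connects `t` with its complex conjugate. By Stokes' formula for the
form `(1/2) dΨ_T ∧ dΨ_(x_0) ∧ ... ∧ dΨ_(x_(k+1))` the difference of the two regulators is the integral
of `sin (π s) (log|x_0| + S) > 0` up to a positive factor and the factor `κ`, and complex conjugation
changes the sign of the regulator.
-/

namespace Pool.Agent.Results.MP_15b3df_nt.TorsionParameters

open Pool.Agent.Helper90.HB Pool.Agent.Helper90.HT

open scoped WithZero

/-- The cocycles of the complex `B_3(A) ⊗ Λ^(k-1) A^* → B_2(A) ⊗ Λ^k A^* → Λ^(k+2) A^*`. -/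
def IsCocycle {A : Type*} [CommRing A] {k : ℕ} (s : FS A k) : Prop := dif A k s = 0

/-- The class of a cocycle in the cohomology of the complex is not zero: it is not in the relations
`Rels A k`. -/
def ClassNeZero {A : Type*} [CommRing A] {k : ℕ} (s : FS A k) : Prop := s ∉ Rels A k

/-- Unramified elements: for all fields `L` with a homomorphism `A → L`, all discrete valuations `v`
of `L` and all uniformizers `π` the residue in `B_2(κ(v)) ⊗ Λ^k κ(v)^* ⊗ ℚ` modulo the image of
`B_3(κ(v)) ⊗ Λ^(k-1) κ(v)^*` is zero. -/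
def Unramified.{u, w} {A : Type u} [CommRing A] {k : ℕ} (s : FS A (k + 1)) : Prop :=
  ∀ (L : Type w) [Field L] (φ : A →+* L) (v : Valuation L ℤᵐ⁰) (π : Lˣ),
    v (π : L) = WithZero.exp (-1 : ℤ) → bnd v π k (FS.map φ s) = 0

/-- The chain is a chain of complex points of the hypersurface over the embedding `σ` of the
constants, and it is a torus: the opposite faces of the cube are glued. -/
def TorusOver {K : Type*} [Field K] {k r l : ℕ} (C : Dat K k r) (t : Kˣ) (σ : K →+* ℂ)
    (γ : Cyc (RingT C t) l) : Prop :=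
  (∀ θ a, γ.e θ (cstT C t a) = σ a) ∧ ∀ i θ, γ.e (θ + Pi.single i 1) = γ.e θ

/-- The regulator on the chain vanishes on the relations, so that it is defined on the cohomology of
the complex. -/
def KillsRels {A : Type*} [CommRing A] {k : ℕ} (γ : Cyc A k) : Prop := ∀ s ∈ Rels A k, γ.reg s = 0

/-- Let `K` be a number field, `k ≥ 0`, let `m_j = ε_j x^(v_j)`, `0 ≤ j ≤ r`, be monomials in
`x_0, ..., x_(k+1)`, where `ε_j = ±1` and the exponents `v_j ∈ ℤ^(k+2)` are pairwise not proportional
and span `ℚ^(k+2)`, and let `n_j ≥ 1` be integers (`C.Admissible`), such that `m_0 = x_0`,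
`n_0 = 1`, and the other monomials do not contain `x_0` (`Split C`). Let `t` be a root of unity in
`K`, `t ≠ ±1`, and let `A = RingT C t` be the coordinate ring of the hypersurface

  `(1 - x_0) (1 - x_0⁻¹) ∏_(j ≥ 1) ((1 - m_j) (1 - m_j⁻¹)) ^ (n_j) = t`

of dimension `k + 1` in the torus `𝔾_m^(k+2)` over `K`. The element

  `α = ∑_j n_j / |v_j|² ∑_s (-1)^s v_(j,s) {m_j}_2 ⊗ x_0 ∧ ... ∧ x_(k+1)` (without `x_s`)

is a cocycle of the complex
`B_3(A) ⊗ Λ^k A^* → B_2(A) ⊗ Λ^(k+1) A^* → Λ^(k+3) A^*` (tensored with `ℚ`), its class in the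
cohomology of this complex, the kernel of the second map modulo the relations `Rels A (k + 1)`
(multilinearity, alternation, the five term relations, and the elements `{f}_2 ⊗ f ∧ ...`), is not
zero, and it is unramified: for all fields `L` with a homomorphism `A → L`, all discrete valuations
`v` of `L` and all uniformizers `π` the residue of `α` in `B_2(κ(v)) ⊗ Λ^k κ(v)^* ⊗ ℚ` modulo the
image of `B_3(κ(v)) ⊗ Λ^(k-1) κ(v)^*` is zero.

For every embedding `σ` of `K` there is a torus `γ` of dimension `k + 1` and of class `C²` in the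
complex points of the hypersurface over `σ`, such that the integral over `[0,1] × γ` of the regulator
form

  `Re ((-i)^k P_f ∧ d(t log|g_0| + i arg g_0) ∧ ... ∧ d(t log|g_k| + i arg g_k))`,

  `P_f = (t² - 1)/2 (log|f| d log|1-f| - log|1-f| d log|f|) - i D(f) dt`,

for `{f}_2 ⊗ g_0 ∧ ... ∧ g_k`, `D` the Bloch-Wigner function, is zero for all elements of
`Rels A (k + 1)`, and for `α` it is a nonzero number of the sign opposite to that of the imaginary
part of `σ(t)`. -/
theorem result.{u, w} {K : Type u} [Field K] [NumberField K] {k r : ℕ}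
    (C : Dat K (k + 1) (r + 1)) (hC : C.Admissible) (hS : Split C) (t : Kˣ) (N : ℕ) (hN : 0 < N)
    (htN : t ^ N = 1) (ht2 : t ^ 2 ≠ 1) :
    IsCocycle (alphaT t hC) ∧ ClassNeZero (alphaT t hC) ∧ Unramified.{u, w} (alphaT t hC) ∧
    ∀ σ : K →+* ℂ, ∃ γ : Cyc (RingT C t) (k + 1),
      TorusOver C t σ γ ∧ KillsRels γ ∧ γ.reg (alphaT t hC) * (σ t).im < 0 := by
  refine ⟨dif_alphaT htN hN hC, ?_, fun L _ φ v π hπ => bnd_alphaT htN hN hC φ v π hπ,
    fun σ => ?_⟩
  · obtain ⟨σ⟩ : Nonempty (K →+* ℂ) := inferInstance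
    obtain ⟨γ, -, -, h3⟩ := exists_cycT hC hS hN htN ht2 σ
    exact γ.not_mem fun h => by rw [h, zero_mul] at h3; exact lt_irrefl _ h3
  · obtain ⟨γ, h1, h2, h3⟩ := exists_cycT hC hS hN htN ht2 σ
    exact ⟨γ, ⟨h1, h2⟩, fun s hs => γ.reg_of_mem hs, h3⟩

end Pool.Agent.Results.MP_15b3df_nt.TorsionParameters
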